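import Mathlib

set_option autoImplicit false

namespace Pool.Agent.Results.MP_89824e_co.No

open scoped Pointwise

/-- A Cayley-coset presentation of the digraph `arc`: an isomorphism with the digraph on the left
cosets of `H` having an arc `gH → g'H` exactly when `g⁻¹ g' ∈ H S H`, where `S ∩ H = ∅`. -/
def Presentation {V : Type} (arc : V → V → Prop) (G : Type) [Group G] (S : Set G)
    (H : Subgroup G) : Prop :=
  Disjoint S (H : Set G) ∧ ∃ e : G ⧸ H ≃ V, ∀ g g' : G,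
    arc (e g) (e g') ↔ g⁻¹ * g' ∈ (H : Set G) * S * (H : Set G)

/-- The automorphism group acts transitively on the vertices. -/
def VertexTransitive {V : Type} (arc : V → V → Prop) : Prop :=
  ∀ v w : V, ∃ φ : V ≃ V, (∀ a b, arc (φ a) (φ b) ↔ arc a b) ∧ φ v = w

abbrev V := ZMod 5 × ZMod 2 × ZMod 2

def arc (v w : V) : Prop := w.1 = v.1 + 1 ∧ w.2.1 = v.2.2

def form (k : ZMod 5) (c : ZMod 5 → ZMod 2) (v : V) : V :=
  (v.1 + k, v.2.1 + c v.1, v.2.2 + c (v.1 + 1))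

theorem aut_form (φ : V → V) (h1 : Function.Injective φ) (h2 : ∀ a b, arc a b → arc (φ a) (φ b)) :
    ∃ k c, φ = form k c := by
  have h3 : ∀ i a b c, (φ (i + 1, b, c)).1 = (φ (i, a, b)).1 + 1 ∧
      (φ (i + 1, b, c)).2.1 = (φ (i, a, b)).2.2 := fun i a b c => h2 (i, a, b) _ ⟨rfl, rfl⟩
  have h4 : ∀ i a b, (φ (i, a, b)).1 = (φ (i, 0, 0)).1 := fun i a b => by
    obtain ⟨j, rfl⟩ : ∃ j, i = j + 1 + 1 := ⟨i - 2, by ring⟩
    rw [(h3 (j + 1) 0 a b).1, (h3 (j + 1) 0 0 0).1, (h3 j 0 0 a).1, (h3 j 0 0 0).1]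
  have h5 : ∀ i, (φ (i, 0, 0)).1 = i + (φ (0, 0, 0)).1 := fun i => by
    have h6 : ∀ n : ℕ, (φ (n, 0, 0)).1 = n + (φ (0, 0, 0)).1 := fun n => by
      induction n with
      | zero => simp
      | succ n ih => rw [Nat.cast_succ, (h3 _ 0 0 0).1, ih]; ring
    simpa using h6 i.val
  have h6 : ∀ i a b, (φ (i, a, b)).2 = ((φ (i, a, 0)).2.1, (φ (i + 1, b, 0)).2.1) := fun i a b => by
    obtain ⟨j, rfl⟩ : ∃ j, i = j + 1 := ⟨i - 1, by ring⟩
    exact Prod.ext (by rw [(h3 j 0 a b).2, (h3 j 0 a 0).2]) (h3 _ a b 0).2.symm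
  have h7 : ∀ i a, (φ (i, a, 0)).2.1 = a + (φ (i, 0, 0)).2.1 := fun i a => by
    have h8 : (φ (i, 1, 0)).2.1 ≠ (φ (i, 0, 0)).2.1 := fun h => by
      have := h1 (Prod.ext (h4 i 1 0) (by rw [h6 i 1, h6 i 0, h]) : φ (i, 1, 0) = φ (i, 0, 0))
      simp at this
    have h9 : ∀ x y : ZMod 2, x ≠ y → x = 1 + y := by decide
    obtain rfl | rfl : a = 0 ∨ a = 1 := by revert a; decide
    · simp
    · exact h9 _ _ h8
  refine ⟨(φ (0, 0, 0)).1, fun i => (φ (i, 0, 0)).2.1, funext fun ⟨i, a, b⟩ => Prod.ext ?_ ?_⟩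
  · exact (h4 i a b).trans (h5 i)
  · rw [h6, h7 i a, h7 (i + 1) b]; rfl

theorem form_comp (k k' : ZMod 5) (c c' : ZMod 5 → ZMod 2) :
    form k c ∘ form k' c' = form (k' + k) (c' + fun i => c (i + k')) := by
  funext ⟨i, a, b⟩
  simp [form, add_assoc, add_comm k' 1]

theorem form_inj {k k' : ZMod 5} {c c' : ZMod 5 → ZMod 2} (h : form k c = form k' c') :
    k = k' ∧ c = c' :=
  ⟨by simpa [form] using congrArg Prod.fst (congrFun h 0),
    funext fun i => by simpa [form] using congrArg (·.2.1) (congrFun h (i, 0, 0))⟩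

theorem span_lemma (P : (ZMod 5 → ZMod 2) → Prop) (h0 : P 0) (h1 : ∀ c c', P c → P c' → P (c + c'))
    (h2 : ∀ c, P c → P fun i => c (i + 1)) (c : ZMod 5 → ZMod 2) (hc : P c) (h : c 0 ≠ c 1)
    (j : ZMod 5) : P (Pi.single j 1 + Pi.single (j + 1) 1) := by
  have h3 : ∀ n : ℕ, P fun i => c (i + n) := fun n => by
    induction n with
    | zero => simpa using hc
    | succ n ih => simpa [add_assoc, add_comm 1 (n : ZMod 5)] using h2 _ ih
  have h4 : ∀ s : Finset (Fin 5), P (∑ n ∈ s, fun i => c (i + (n : ℕ))) := fun s => by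
    induction s using Finset.induction_on with
    | empty => simpa using h0
    | insert n s hn ih => rw [Finset.sum_insert hn]; exact h1 _ _ (h3 n) ih
  have h5 : ∀ (c : ZMod 5 → ZMod 2) (j : ZMod 5), c 0 ≠ c 1 → ∃ s : Finset (Fin 5),
      (∑ n ∈ s, fun i => c (i + (n : ℕ))) = Pi.single j 1 + Pi.single (j + 1) 1 := by
    decide +kernel
  obtain ⟨s, hs⟩ := h5 c j h
  exact hs ▸ h4 s

theorem result : ∃ (V : Type) (_ : Finite V) (arc : V → V → Prop), (∀ v, ¬ arc v v) ∧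
    (∀ v, {w | arc v w}.ncard = 2) ∧ VertexTransitive arc ∧
    ∀ (G : Type) [Group G] [Finite G] (S : Set G) (H : Subgroup G), Presentation arc G S H →
      2 < Nat.card H := by
  classical
  refine ⟨V, inferInstance, arc, fun v h => absurd (by simpa using h.1) (by decide : (1 : ZMod 5) ≠ 0), fun ⟨i, a, b⟩ => ?_, ?_, ?_⟩
  · rw [Set.ncard_eq_two]
    refine ⟨(i + 1, b, 0), (i + 1, b, 1), by simp, Set.ext fun ⟨j, c, d⟩ => ?_⟩
    have : d = 0 ∨ d = 1 := by revert d; decide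
    simp only [arc, Set.mem_ofPred_eq, Set.mem_insert_iff, Set.mem_singleton_iff, Prod.mk.injEq]
    tauto
  · rintro ⟨i, a, b⟩ ⟨j, c, d⟩
    let u : ZMod 5 → ZMod 2 := fun x => if x = i then c - a else d - b
    refine ⟨Equiv.ofBijective (form (j - i) u) (Finite.injective_iff_bijective.mp ?_), ?_, ?_⟩
    · rintro ⟨x, y, z⟩ ⟨x', y', z'⟩ h
      simp only [form, Prod.mk.injEq, add_left_inj] at h
      obtain ⟨rfl, h1, h2⟩ := h
      simp_all
    · rintro ⟨x, y, z⟩ ⟨x', y', z'⟩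
      simp only [Equiv.ofBijective_apply, form, arc, add_right_comm x (j - i), add_left_inj]
      exact and_congr_right fun h => by rw [h, add_left_inj]
    · simp [form, u, (by decide : (1 : ZMod 5) ≠ 0)]
  rintro G _ _ S H ⟨-, e, he⟩
  let ρ : G → V → V := fun g v => e (g • e.symm v)
  have h1 : ∀ g, ∃ k c, ρ g = form k c := fun g => aut_form _
    (e.injective.comp ((MulAction.injective g).comp e.symm.injective)) fun a b => by
      obtain ⟨x, rfl⟩ := e.surjective a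
      obtain ⟨y, rfl⟩ := e.surjective b
      obtain ⟨x, rfl⟩ := QuotientGroup.mk_surjective x
      obtain ⟨y, rfl⟩ := QuotientGroup.mk_surjective y
      simp only [ρ, Equiv.symm_apply_apply, MulAction.Quotient.smul_coe, he, smul_eq_mul]
      simp [mul_assoc]
  have h2 : ∀ g g', ρ (g * g') = ρ g ∘ ρ g' := fun g g' => funext fun v => by simp [ρ, mul_smul]
  have h3 : ρ 1 = form 0 0 := funext fun v => by simp [ρ, form]
  have h4 : ∀ v w, ∃ g, ρ g v = w := fun v w => by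
    obtain ⟨g, hg⟩ := MulAction.exists_smul_eq G (e.symm v) (e.symm w)
    exact ⟨g, by simp [ρ, hg]⟩
  obtain ⟨t, ht⟩ := h4 0 (1, 0, 0)
  obtain ⟨k, d, hd⟩ := h1 t
  obtain rfl : k = 1 := by simpa [hd, form] using congrArg Prod.fst ht
  obtain ⟨k', d', hd'⟩ := h1 t⁻¹
  obtain ⟨g, hg⟩ := h4 0 (0, 1, 0)
  obtain ⟨k, c, hc⟩ := h1 g
  obtain ⟨rfl, h6, h7⟩ : k = 0 ∧ c 0 = 1 ∧ c 1 = 0 := by simpa [hc, form] using hg
  have h8 := span_lemma (fun c => ∃ g, ρ g = form 0 c) ⟨1, h3⟩ (by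
    rintro c c' ⟨g, hg⟩ ⟨g', hg'⟩
    exact ⟨g' * g, by rw [h2, hg, hg', form_comp]; simp⟩) (by
    rintro c ⟨g, hg⟩
    have h5 := h2 t⁻¹ t
    rw [inv_mul_cancel, h3, hd, hd', form_comp] at h5
    refine ⟨t⁻¹ * (g * t), ?_⟩
    rw [h2, h2, hg, hd, hd', form_comp, form_comp, add_zero, ← (form_inj h5).1, add_right_comm,
      ← (form_inj h5).2, zero_add]) c ⟨g, hc⟩ (by rw [h6, h7]; decide)
  obtain ⟨g1, hg1⟩ := h8 ((e (1 : G)).1 + 2)
  obtain ⟨g2, hg2⟩ := h8 ((e (1 : G)).1 + 3)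
  have h9 : ∀ g, ρ g (e (1 : G)) = e (1 : G) → g ∈ H := fun g hg => by
    simp only [ρ, Equiv.symm_apply_apply, MulAction.Quotient.smul_coe, e.apply_eq_iff_eq] at hg
    simpa using QuotientGroup.eq.mp hg.symm
  have h10 : ∀ v : V, form 0 (Pi.single (v.1 + 2) 1 + Pi.single (v.1 + 2 + 1) 1) v = v ∧
      form 0 (Pi.single (v.1 + 3) 1 + Pi.single (v.1 + 3 + 1) 1) v = v ∧
      form 0 (Pi.single (v.1 + 2) 1 + Pi.single (v.1 + 2 + 1) 1) ≠ form 0 0 ∧
      form 0 (Pi.single (v.1 + 3) 1 + Pi.single (v.1 + 3 + 1) 1) ≠ form 0 0 ∧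
      form 0 (Pi.single (v.1 + 2) 1 + Pi.single (v.1 + 2 + 1) 1) ≠
        form 0 (Pi.single (v.1 + 3) 1 + Pi.single (v.1 + 3 + 1) 1) := by decide +kernel
  obtain ⟨a1, a2, a3, a4, a5⟩ := h10 (e (1 : G))
  rw [← hg1] at a1 a3 a5
  rw [← hg2] at a2 a4 a5
  rw [← h3] at a3 a4
  have := Fintype.ofFinite H
  rw [Nat.card_eq_fintype_card, Fintype.two_lt_card_iff]
  exact ⟨1, ⟨g1, h9 _ a1⟩, ⟨g2, h9 _ a2⟩, fun h => a3 (congrArg (ρ ·.1) h.symm),
    fun h => a4 (congrArg (ρ ·.1) h.symm), fun h => a5 (congrArg (ρ ·.1) h)⟩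

end Pool.Agent.Results.MP_89824e_co.No
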